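import Pool.Agent.Run7.h830.CS.Main

/-!
# Campana's analytic conjecture for varieties which carry a map with many preperiodic points

`X` is a complex projective variety of any dimension `w`, given by its function field `K` and the
homogeneous coordinates `x` of its generic point: `coords ℂ x = ⊤` says that the ratios of the
coordinates generate `K`. `f = p / q` is a rational map of degree `d` of the projective line over `K`,
that is, a family of rational maps `f_t` of degree `d`, `t` in an open subset of `X`
(`ratP1 p q d` is the action on `P^1(K) = Option K`). `prePer d p q` is the set of the preperiodic points
of `f` in `P^1(K)`, that is, of the preperiodic rational sections.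

`Special ℂ K w (fun _ => False)` (`Pool/Agent/W602/GT/SpecDefs.lean`): `X` is special in the sense of
Campana: for `p ≥ 1` there is no nonzero rational `p`-form `θ` such that for some `N > 0` there are
holomorphic multiples `f j * θ ^ N` (regular at all prime divisors of all models) with `p` algebraically
independent ratios; this says `κ (X', F) < p` for all coherent subsheaves `F` of rank one of the sheaf of
`p`-forms on a resolution `X'`, `p ≥ 1`.

`BrodySpecial ∅ x` (`Pool/Agent/W602/GT/BroDefs.lean`): there is a holomorphic map from the complex plane to
`X`, given by entire functions without common zeros, with Zariski-dense image.

Theorem. For every `d ≥ 2` there is a number `B` such that for all projective varieties `X` which are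
special or Brody-special and all rational maps `f` of degree `d` over `K` with at least `B` preperiodic
points in `P^1(K)`: `f` is conjugate over `K` to a map with complex coefficients, and the conjugation maps
the preperiodic points of `f` in `P^1(K)` to constants.

So if `X` is any projective variety which carries a rational map `f` of degree `d` with at least `B`
preperiodic points in `P^1(K)` and `f` is not conjugate over `K` to a constant map (for instance if `f` is
not isotrivial), then `X` is neither special nor Brody-special, and Q1 holds for `X`. No assumption is made
on the dimension of the image of the moduli map `X ⇢ M_d` and on its fibres, which can be any varieties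
(for instance rational or abelian varieties, so that `X` can contain many entire curves, none of them
dense). Examples: for all `n ≥ 3` there are a projective variety of dimension `2 d - 2` and a map of
degree `d` over its function field which is not isotrivial and has at least `n` preperiodic points
(`Pool.Agent.Q103.EC.exists_variety`), and then all varieties which dominate it.

Proof. The base `Y` of the moduli fibration `X ⇢ Y` of `f` is of general type if it is not a point
(`Pool.Agent.Q103.VR.general`, project of helper103 with many others, with symmetric differentials and
generalised Wronskians made from the cross ratios of the preperiodic points), and its entire curves are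
contained in a proper closed subset (`Pool.Agent.Q103.EC.main`, Nevanlinna theory). A variety which
dominates a variety of general type of positive dimension is not special
(`Pool.Agent.TH466.QT.not_special`), and a Zariski-dense entire curve in `X` gives one in `Y`
(`Pool.Agent.N459.JS.fibreCurves`). So `Y` is a point and the map descends to the constants.
-/

set_option autoImplicit false

namespace Pool.Agent.Results.MP_1209e6_ag.ManyPreperiodicPoints

open Polynomial
open Pool.Agent.W602.GT
open Pool.Agent.W277.UH (ratP1)
open Pool.Agent.Q103.EC (prePer)

/-- **Campana's analytic conjecture for varieties which carry a map with many preperiodic points.** For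
every `d ≥ 2` there is `B` such that over the function field `K` of a special or Brody-special projective
variety every rational map of degree `d` with at least `B` preperiodic points in `P^1(K)` is conjugate over
`K` to a map with complex coefficients (by a conjugation which makes these preperiodic points constant). -/
theorem result (d : ℕ) (hd : 2 ≤ d) :
    ∃ B : ℕ, ∀ (K : Type) [Field K] [Algebra ℂ K] (M : ℕ) (x : Fin (M + 1) → K), x ≠ 0 →
      coords ℂ x = ⊤ → ∀ w : ℕ, Algebra.trdeg ℂ K = w →
      (Special ℂ K w (fun _ => False) ∨ BrodySpecial (∅ : Set (Fin (M + 1))) x) →
      ∀ p q : K[X], IsCoprime p q → max p.natDegree q.natDegree = d →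
      (B : ℕ∞) ≤ (prePer d p q).encard →
        ∃ (p' q' : ℂ[X]) (a b c e : K), a * e - b * c ≠ 0 ∧ IsCoprime p' q' ∧
          max p'.natDegree q'.natDegree = d ∧
          (∀ y, ratP1 (C a * X + C b) (C c * X + C e) 1 (ratP1 p q d y) =
            ratP1 (p'.map (algebraMap ℂ K)) (q'.map (algebraMap ℂ K)) d
              (ratP1 (C a * X + C b) (C c * X + C e) 1 y)) ∧
          ∀ z ∈ prePer d p q, ∃ y : Option ℂ, Option.map (algebraMap ℂ K) y =
            ratP1 (C a * X + C b) (C c * X + C e) 1 z := by
  obtain ⟨B, hB⟩ := Pool.Agent.Run7.h830.CS.special d hd
  exact ⟨B, fun K _ _ M x hx hgen w hw hS p q hco hmax hmany =>
    Pool.Agent.Run7.h830.CS.descend (hB K M x hx hgen w hw hS p q hco hmax hmany)⟩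

end Pool.Agent.Results.MP_1209e6_ag.ManyPreperiodicPoints
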