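import Pool.Agent.Run7.h718.AF.Thm
import Pool.Agent.Run7.h718.PN.Spec

/-!
# Entire curves which satisfy a functional equation with a polynomial substitution

`X` is a projective variety with function field `K`, of dimension `w`, `f` is a Zariski-dense entire
curve in `X`, and `s` is a nonconstant polynomial which is not a translation, and no iterate `s^k` of
which is the identity; for example any polynomial of degree at least two, or `q z` if `q` is not a root
of unity. Assume that `f (s^m (z))` is a rational function of `f z`, `f (s (z))`, ...,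
`f (s^{m - 1} (z))`, with coefficients which are polynomials in entire functions `c 1, ..., c l` such
that the `c i (s (z))` are rational functions of the `c j z`; for example polynomials in `z`, of any
order `m` (`FunEq`). Then

* `X` is special in the sense of Campana: there is no fibration with an orbifold base of general type;
  in particular, `X` is not of general type;
* the varieties dominated by `X` have Kodaira dimension at most one;
* if `θ ≠ 0` and `r θ` are regular covariant tensors of any rank on `X` (sections of a tensor power of
  the cotangent bundle of the smooth models), then `r` is, along `f`, a rational function of `z`.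

Let `s` be of degree at least two, and let `L` be a finitely generated subfield of `K`, that is, the
function field of a variety `Z` which is dominated by `X` (for example `Z = X`). Then

* two regular covariant tensors of any rank on `Z` which are proportional over `L` are proportional
  over `ℂ`: the line subsheaves of all tensor powers of the cotangent bundle have Kodaira dimension at
  most zero;
* `Z` is special: the rank one subsheaves of the sheaf of `p`-forms have Kodaira dimension less than
  `p`, for all `p ≥ 1`, and `Z` has Kodaira dimension at most zero.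

Example: a Kummer variety `A / ± 1`, for an abelian variety `A` with a Zariski-dense homomorphism
`g : ℂ* → A`, with `f (w + 1 / w) = ± g w`, `s` the Chebyshev polynomial of degree `d` and
`f (s (z)) = [d] f (z)`; the Kummer surfaces are K3 surfaces and have a regular two-form.
-/

set_option autoImplicit false

open FF MvPolynomial Pool.Agent.W602.GT Pool.Agent.TH143.GT Pool.Agent.W603.BPR Pool.Agent.W603.BP
open Pool.Agent.Run7.h718.ND (RationalAlong)
open Pool.Agent.Run7.h718.NE (RegTensor)
open Pool.Agent.Run7.h718.SP (FunEq)

/-- **Functional equations with a polynomial substitution.** -/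
theorem Pool.Agent.Results.MP_1209e6_ag.PolynomialFunctionalEquations.result {n w : ℕ}
    {p : Ideal (MvPolynomial (Fin (n + 1)) ℂ)} {K : Type} [Field K] [Algebra ℂ K]
    {y : Fin (n + 1) → K} (hy : FunField p 1 K w y) {f : ℂ → Fin (n + 1) → ℂ}
    (hf : EntireCurve p 1 f) (hd : ZDense p f Set.univ) {s : Polynomial ℂ} (hs : 0 < s.natDegree)
    (hinf : ∀ k, 0 < k → ∃ z, (fun x => s.eval x)^[k] z ≠ z)
    (hnt : ∀ b : ℂ, s ≠ Polynomial.X + Polynomial.C b) {m : ℕ} (hE : FunEq s m f) :
    (Pool.Agent.Run7.h718.NE.Special K w ∧ ¬ GeneralType ℂ K w) ∧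
    (∀ (L : Type) [Field L] [Algebra ℂ L] [Algebra.EssFiniteType ℂ L] (_ : L →ₐ[ℂ] K) (u : ℕ),
      Algebra.trdeg ℂ L = u → ¬ KodGe ℂ L u (fun _ => False) 2) ∧
    (∀ (M : ℕ) (θ : MultilinearMap K (fun _ : Fin M => Derivation ℂ K K) K) (r : K),
      θ ≠ 0 → RegTensor w θ → RegTensor w (r • θ) → RationalAlong y f r) ∧
    (2 ≤ s.natDegree →
      ∀ (L : Type) [Field L] [Algebra ℂ L] [Algebra.EssFiniteType ℂ L] (_ : L →ₐ[ℂ] K) (u : ℕ),
      Algebra.trdeg ℂ L = u →
      (∀ (M : ℕ) (θ : MultilinearMap L (fun _ : Fin M => Derivation ℂ L L) L) (r : L),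
        θ ≠ 0 → RegTensor u θ → RegTensor u (r • θ) → ∃ c : ℂ, r = algebraMap ℂ L c) ∧
      Special ℂ L u (fun _ => False) ∧ ¬ KodGe ℂ L u (fun _ => False) 1) := by
  obtain ⟨h1, h2⟩ := Pool.Agent.Run7.h718.PN.special_main hy hf hd hs hinf hE hnt
  refine ⟨⟨h2, fun hgt => ?_⟩, h1, fun M θ r h0 hθ hr => ?_,
    fun h => (Pool.Agent.Run7.h718.SP.curve_main hy hf hd h hE).1⟩
  · obtain ⟨c, hc⟩ := Pool.Agent.Run7.h718.AF.pol_main hy hf hd hgt
    obtain ⟨b, hb, -⟩ := hc s m hs hinf hE
    exact hnt b hb
  · rcases Pool.Agent.Run7.h718.PN.pencil_main (N := 1) hy hf hd hs hinf hE h0 hθ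
      (r := fun _ => r) (fun _ => hr) with h3 | ⟨b, hb, -⟩
    · exact h3 0
    · exact absurd hb (hnt b)
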