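import Mathlib
import Pool.Agent.Run7.h346.VD.Fin

/-!
MP_1209e6_ag, Q1: Campana's conjecture for the Zariski closures of entire curves in the projective
varieties which have an immersive family of symmetric differentials of arbitrary degrees: the
fibration by the slow functions.
-/

set_option autoImplicit false

namespace Pool.Agent.Results.MP_1209e6_ag.SlowFibration

open MvPolynomial
open Pool.Agent.TH182.TC (PS)
open Pool.Agent.W602.GT Pool.Agent.N155 Run7.h418 Run7.h418.Z Run7.h346.VD

/-- Let `X = {F = 0}` be a complex projective variety with an immersive finite family of symmetric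
differentials `σ j` of positive degrees `m j`. Let `p` be a nonconstant entire curve in `X`, and let
`V` be its Zariski closure, of dimension `w`, with function field `K`. There is a subfield `S` of
`K`, algebraically closed in `K`, of transcendence degree `t < w`, that is, a fibration of `V` on a
variety of dimension `t`, which consists of slow functions, such that all quotients of sections of
powers of rank one subsheaves of the tensor powers of the sheaf of differentials of the models of `V`
are in `S`. If `p` has finite order then `t ≤ 1`, and the elements of `S` are algebraic over the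
rational functions of `z` along `p`. If `p` has bounded derivative then `t = 0`. In particular all
these sheaves have Kodaira dimension at most `t`, and the Bogomolov sheaves of `V` have degree at
most `t`. If `t = 0` then `V` is special, and all these sheaves have Kodaira dimension at most
`0`. -/
theorem result {n : ℕ} {ι κ : Type} [Finite κ] {F : ι → MvPolynomial (Fin (n + 1)) ℂ}
    (hF : ∀ i, IsForm (F i)) {m : κ → ℕ} (hm : ∀ j, 0 < m j)
    {σ : κ → (Fin (n + 1) → ℂ) → (Fin (n + 1) → ℂ) → ℂ} (hσ : ∀ j, SymForm F (m j) (σ j))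
    (him : Immersive F σ) {p : ℂ → PS n} (hp : HolMap p) (hpX : ∀ z, (p z).rep ∈ Cone F)
    (hne : ∃ z w, p z ≠ p w)
    (K : Type) [Field K] [Algebra ℂ K] (w : ℕ) (y : Fin (n + 1) → K) (hcl : IsClosure F p K w y) :
    ∃ (G : ℂ → Fin (n + 1) → ℂ) (C r0 : ℝ) (S : IntermediateField ℂ K) (t : ℕ),
      IsLiftOf p G ∧ 0 < C ∧ (∀ r, r0 ≤ r → r ≤ grow G C r) ∧
      (∀ x ∈ S, Slow (grow G C) r0 G y x) ∧ (∀ x : K, IsAlgebraic S x → x ∈ S) ∧
      Algebra.trdeg ℂ S = t ∧ t < w ∧ (FiniteOrder p → t ≤ 1 ∧ ∀ x ∈ S, AlgAlong G y x) ∧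
      (BoundedDer p → t = 0) ∧
      (∀ (q : ℕ) (θ : MultilinearMap K (fun _ : Fin q => Derivation ℂ K K) K) (N : ℕ) (f g : K),
        θ ≠ 0 → 0 < N → IsSection w θ N f → IsSection w θ N g → f / g ∈ S) ∧
      (∀ (q : ℕ) (θ : MultilinearMap K (fun _ : Fin q => Derivation ℂ K K) K) (N k : ℕ)
        (f : Fin (k + 1) → K), θ ≠ 0 → 0 < N → (∀ i, IsSection w θ N (f i)) → f 0 ≠ 0 →
          AlgebraicIndependent ℂ (fun i : Fin k => f i.succ / f 0) → k ≤ t) ∧
      (∀ q : ℕ, BogSheaf ℂ K w (fun _ => False) q → q ≤ t) ∧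
      (t = 0 → Special ℂ K w (fun _ => False) ∧ TensorKodairaLeZero K w) := by
  have hfin : Fintype κ := Fintype.ofFinite κ
  obtain ⟨G, C, r0, S, t, h1, h2, h3, h4, h5, h6, h7, h8, h9⟩ :=
    Run7.h346.VD.main hF hm hσ him hp hpX hne hcl
  by_cases hb : BoundedDer p
  · have hk := Run7.h346.VD.main_bd hF hm hσ him hp hpX hb hne K w y hcl.1 hcl.2
    have hbot : Algebra.IsAlgebraic ℂ (⊥ : IntermediateField ℂ K) := by
      refine ⟨fun x => ?_⟩
      obtain ⟨c, hc⟩ := IntermediateField.mem_bot.1 x.2
      have h : x = algebraMap ℂ (⊥ : IntermediateField ℂ K) c := Subtype.ext hc.symm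
      rw [h]
      exact isAlgebraic_algebraMap c
    have htr : Algebra.trdeg ℂ (⊥ : IntermediateField ℂ K) = (0 : ℕ) := by
      rw [Nat.cast_zero]
      exact trdeg_eq_zero_iff.2 hbot
    have h9' : ∀ (q : ℕ) (θ : MultilinearMap K (fun _ : Fin q => Derivation ℂ K K) K) (N : ℕ)
        (f g : K), θ ≠ 0 → 0 < N → IsSection w θ N f → IsSection w θ N g →
          f / g ∈ (⊥ : IntermediateField ℂ K) := by
      intro q θ N f g hθ hN hf hg
      by_cases hg0 : g = 0
      · rw [hg0, div_zero]
        exact zero_mem _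
      · obtain ⟨c, hc⟩ := hk q θ hθ N hN f g hf hg hg0
        rw [hc, mul_div_cancel_right₀ _ hg0]
        exact IntermediateField.mem_bot.2 ⟨c, rfl⟩
    obtain ⟨h10, h11, h12⟩ := conclusions htr h9'
    refine ⟨G, C, r0, ⊥, 0, h1, h2, h3, fun x hx => ?_, fun x hx => ?_, htr,
      lt_of_le_of_lt (Nat.zero_le t) h7, fun hfo => ⟨Nat.zero_le 1, fun x hx => ?_⟩, fun _ => rfl,
      h9', h10, h11, h12⟩
    · obtain ⟨c, hc⟩ := IntermediateField.mem_bot.1 hx
      apply h4
      rw [← hc]
      exact S.algebraMap_mem c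
    · obtain ⟨c, hc⟩ := Run7.h346.VD.const_of_algebraic (IsAlgebraic.restrictScalars ℂ hx)
      exact IntermediateField.mem_bot.2 ⟨c, hc.symm⟩
    · obtain ⟨c, hc⟩ := IntermediateField.mem_bot.1 hx
      apply (h8 hfo).2
      rw [← hc]
      exact S.algebraMap_mem c
  · obtain ⟨h10, h11, h12⟩ := conclusions h6 h9
    exact ⟨G, C, r0, S, t, h1, h2, h3, h4, h5, h6, h7, h8, fun h => absurd h hb, h9, h10, h11, h12⟩

end Pool.Agent.Results.MP_1209e6_ag.SlowFibration
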