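import Pool.Agent.Run7.h260.TW.Fin
import Pool.Agent.R882.CSpec

/-!
# Special images of towers over hypersurfaces and over coverings of complete intersections

A tower of dimension `n` with the bound `s` (`Tower c n Base K s`) is a sequence of dominant rational
maps of finite degree `V = V_0 ⇢ V_1 ⇢ ... ⇢ V_k` between varieties of dimension `n` over `ℂ`. At the step
`V_i ⇢ V_(i + 1)`, of degree `b_i`, the canonical bundle of `V_i` is positive relative to `V_(i + 1)`
(`Positive`): `V_(i + 1)` is the image of `V_i` in a projective space, and for all varieties `Y'`,
`V_i ⇢ Y' ⇢ V_(i + 1)`, of degree `> 1` over `V_(i + 1)` there is a section of `K_(V_i) - m H` with a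
nonzero trace on `Y'`, where `s_i ≤ [V_i : Y'] (m + 1)`; for instance cyclic coverings of prime degree
branched along a sufficiently positive divisor. The bounds are `s_0 = s`, `s_(i + 1) = ⌊s_i / b_i⌋`. The
last variety `V_k`, with the bound `s_k`, is

* a smooth hypersurface of degree `d` in `ℙ^(n + 1)`, where for some `N` one has `d ≥ 7 N + n + 6`,
  `d > (n + 1) N`, `d > c (N + n - 1)` and `s_k < (N + 1) (d - n - N)`; or
* any variety with a generically finite map, of any degree, to a variety in `ℙ^(M + 1)` which is cut out
  by equations of degree at most `D` and has the regular canonical forms `P(x) ω₀` for all forms `P`
  of degree `m`, for instance a smooth complete intersection of codimension at least two with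
  `K = O(m)`; where for some `N` one has `m ≥ 7 N + 4`, `m + M + 2 > (M + 1) N`, `m + 2 ≥ D + N` and
  `s_k < (N + 1) (m + 2 - N)`; or
* any unirational variety, without condition on `s_k`.

Let `V` be the first variety of a tower with the bound `s = 2 r` (and `c = 3`), and let `V ⇢ X` be any
dominant rational map of degree `r`; nothing is assumed about the map (it need not be a quotient by a
group and has no relation to the tower) or about `X`. The theorem: if `X` is special then it is
unirational. In fact `X` is either of general type or unirational. Unirational varieties are
Brody-special: there is a Zariski dense entire curve in projective space, hence in each unirational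
projective variety (a standard fact which is not formalised here). So special implies Brody-special for
all projective varieties which are birational to such an `X`, and the following are equivalent for
them: special; not of general type; unirational. For these `X` the converse part of Campana's
conjecture is the conjecture of Green, Griffiths and Lang that varieties of general type have no
Zariski dense entire curve.

With the best `N` the bound for the degree `r` is of the order of `b d ^ 2` (`b = b_0 ... b_(k - 1)`) for
towers over hypersurfaces of degree `d`, and of the order of `b m ^ 2` for towers over coverings of
complete intersections. The starting result of this question on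
images has towers of complete intersections in products of lines over unirational varieties
(`SpecialImages`); the hypersurfaces and the coverings of varieties of low degree as bases are new
here.

The dichotomy for these towers is a theorem of helper260 (`Pool/Agent/Run7/h260/TW/Fin.lean`), who
handed it in for the abundance conjecture as `MP_5ff3c6_ag.ImagesOfTowers`. Proof: if `X` is not of general type then the
traces of the canonical forms to `X` do not separate the general points of `X`, and at each step `V_i ⇢ X`
factors through `V_(i + 1)`; at the bottom the theorems on hypersurfaces and on complete intersections
of quadratic degree (`N162/HN`, `N162/GP`) are used. If `X` is of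
general type then the canonical sheaf is a Bogomolov sheaf.

`K` and `L` are the function fields of `V` and `X`. `Special ℂ L n ∅`: there is no Bogomolov sheaf
on the smooth projective varieties with function field `L` (`Pool/Agent/W602/GT`).
`IsUnirational ℂ L n`: `L` embeds in the field of rational functions in `n` variables
(`Pool/Agent/W619/TW`).
-/

set_option autoImplicit false
set_option linter.overlappingInstances false

open FF Module Pool.Agent.W602.GT
open Pool.Agent.W619.TW (IsUnirational)
open Pool.Agent.Run7.h260.TW (Tower)

namespace Pool.Agent.Results.MP_1209e6_ag.TowersOverLowDegree

/-- **Special images of towers.** Let `K` be the function field of the first variety `V` of a tower of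
dimension `n ≥ 1` with the bound `2 r` over a smooth hypersurface, a covering of a variety of low
degree, or a unirational variety, and let `V ⇢ X` be a dominant rational map of degree `r`, `L` the
function field of `X`. Then `X` is not of general type if and only if it is unirational, and if `X` is
special then it is unirational. -/
theorem result {n : ℕ} (hn : 1 ≤ n) {K : Type} [Field K] [Algebra ℂ K] [Algebra.EssFiniteType ℂ K]
    (hK : Algebra.trdeg ℂ K = n) (L : Type) [Field L] [Algebra ℂ L] [Algebra L K]
    [IsScalarTower ℂ L K] [FiniteDimensional L K]
    (h : Tower 3 n (fun E _ _ => IsUnirational ℂ E n) K (2 * Module.finrank L K)) :
    (Special ℂ L n (fun _ => False) → IsUnirational ℂ L n) ∧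
    (¬ GeneralType ℂ L n ↔ IsUnirational ℂ L n) := by
  have h1 := Pool.Agent.Run7.h260.TW.gt_unirational L hn hK le_rfl le_rfl h
  have h2 : ¬ GeneralType ℂ L n ↔ IsUnirational ℂ L n := h1.out 0 5
  exact ⟨fun hS => h2.1 fun hg => Pool.Agent.R882.LT.not_special_of_gt hn hg hS, h2⟩

end Pool.Agent.Results.MP_1209e6_ag.TowersOverLowDegree
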